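import Pool.Agent.N89.GS.Stm

/-!
Project GS (helper89), task CNT (helper591): counting the points of an affine cone by a spanning set
of functions.
-/

set_option autoImplicit false

namespace Pool.Agent.N591.GS.CNT

open MvPolynomial Pool.Agent.N89.GS

/-- homogeneous component of a product with a homogeneous polynomial -/
theorem hc_mul {σ k : Type} [Field k] (h q : MvPolynomial σ k) (e d : ℕ) (hq : q.IsHomogeneous e) :
    homogeneousComponent d (h * q) = if e ≤ d then homogeneousComponent (d - e) h * q else 0 := by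
  induction h using MvPolynomial.induction_on' with
  | monomial u a =>
    have h1 : (monomial u a : MvPolynomial σ k).IsHomogeneous u.degree := isHomogeneous_monomial a rfl
    have h2 := h1.mul hq
    rw [homogeneousComponent_of_mem h2, homogeneousComponent_of_mem h1]
    by_cases c1 : e ≤ d
    · rw [if_pos c1]
      by_cases c2 : d = u.degree + e
      · rw [if_pos c2, if_pos (by omega)]
      · rw [if_neg c2, if_neg (by omega), zero_mul]
    · rw [if_neg c1, if_neg (by omega)]
  | add p r hp hr =>
    rw [add_mul, map_add, hp, hr, map_add]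
    split_ifs
    · rw [add_mul]
    · rw [add_zero]

/-- there is a smaller exponent of given degree -/
theorem exists_le_deg {m : ℕ} (α : Fin m →₀ ℕ) (N : ℕ) (h : N ≤ α.degree) :
    ∃ α' α'' : Fin m →₀ ℕ, α = α' + α'' ∧ α''.degree = N := by
  induction N with
  | zero => exact ⟨α, 0, by simp, by simp⟩
  | succ N ih =>
    obtain ⟨α', α'', h1, h2⟩ := ih (by omega)
    have h3 : α'.degree ≠ 0 := by
      intro h0
      have : α.degree = α'.degree + α''.degree := by rw [h1, map_add]
      omega
    have h4 : α' ≠ 0 := by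
      rintro rfl
      simp at h3
    obtain ⟨j, hj⟩ := Finsupp.ne_iff.1 h4
    simp only [Finsupp.coe_zero, Pi.zero_apply] at hj
    have h5 : Finsupp.single j 1 ≤ α' := by
      rw [Finsupp.single_le_iff]
      omega
    refine ⟨α' - Finsupp.single j 1, α'' + Finsupp.single j 1, ?_, ?_⟩
    · rw [h1, ← add_assoc, add_right_comm, tsub_add_cancel_of_le h5]
    · rw [map_add, h2, Finsupp.degree_single]

section
variable {k' : Type} [Field k'] {m n : ℕ} {Z : Type}

/-- the generators -/
def gens (P : Z → Fin m → k') (ℓ : Fin n → MvPolynomial (Fin m) k') (N₀ B : ℕ) : Set (Z → k') :=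
  {φ | ∃ β : Fin n → ℕ, (∀ i, β i ≤ B) ∧ ∃ γ : Fin m → ℕ, (∀ j, γ j < N₀) ∧
    φ = fun z => (∏ i, eval (P z) (ℓ i) ^ β i) * ∏ j, P z j ^ γ j}

theorem gens_mono (P : Z → Fin m → k') (ℓ : Fin n → MvPolynomial (Fin m) k') (N₀ : ℕ) {B B' : ℕ}
    (h : B ≤ B') : gens P ℓ N₀ B ⊆ gens P ℓ N₀ B' := by
  rintro φ ⟨β, hβ, γ, hγ, rfl⟩
  exact ⟨β, fun i => (hβ i).trans h, γ, hγ, rfl⟩

theorem mul_mem (P : Z → Fin m → k') (ℓ : Fin n → MvPolynomial (Fin m) k') (N₀ B : ℕ) (j : Fin n)
    (φ : Z → k') (hφ : φ ∈ Submodule.span k' (gens P ℓ N₀ B)) :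
    (fun z => eval (P z) (ℓ j) * φ z) ∈ Submodule.span k' (gens P ℓ N₀ (B + 1)) := by
  classical
  induction hφ using Submodule.span_induction with
  | mem x hx =>
    obtain ⟨β, hβ, γ, hγ, rfl⟩ := hx
    apply Submodule.subset_span
    refine ⟨Function.update β j (β j + 1), ?_, γ, hγ, ?_⟩
    · intro i
      by_cases h : i = j
      · subst h
        simpa using hβ i
      · rw [Function.update_of_ne h]
        exact (hβ i).trans (Nat.le_succ _)
    · funext z
      rw [← mul_assoc]
      congr 1
      rw [Fintype.prod_eq_mul_prod_compl j, Fintype.prod_eq_mul_prod_compl (a := j)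
        (fun i => eval (P z) (ℓ i) ^ Function.update β j (β j + 1) i)]
      rw [← mul_assoc, Function.update_self, pow_succ']
      congr 1
      apply Finset.prod_congr rfl
      intro i hi
      have : i ≠ j := by simpa using hi
      rw [Function.update_of_ne this]
  | zero =>
    have : (fun z => eval (P z) (ℓ j) * (0 : Z → k') z) = 0 := by
      funext z; simp
    rw [this]
    exact Submodule.zero_mem _
  | add x y _ _ hx hy =>
    have : (fun z => eval (P z) (ℓ j) * (x + y) z) =
        (fun z => eval (P z) (ℓ j) * x z) + fun z => eval (P z) (ℓ j) * y z := by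
      funext z; simp [mul_add]
    rw [this]
    exact Submodule.add_mem _ hx hy
  | smul a x _ hx =>
    have : (fun z => eval (P z) (ℓ j) * (a • x) z) = a • (fun z => eval (P z) (ℓ j) * x z) := by
      funext z; simp [mul_left_comm]
    rw [this]
    exact Submodule.smul_mem _ _ hx

theorem eval_hc {ι : Type} (P : Z → Fin m → k') (g : ι → MvPolynomial (Fin m) k') (f : ι → ℕ)
    (hg : ∀ i, (g i).IsHomogeneous (f i)) (hP : ∀ z i, eval (P z) (g i) = 0)
    (a : MvPolynomial (Fin m) k') (ha : a ∈ Ideal.span (Set.range g)) :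
    ∀ (p : MvPolynomial (Fin m) k') (d : ℕ) (z : Z),
      eval (P z) (homogeneousComponent d (p * a)) = 0 := by
  induction ha using Submodule.span_induction with
  | mem x hx =>
    obtain ⟨i, rfl⟩ := hx
    intro p d z
    rw [hc_mul p (g i) (f i) d (hg i)]
    split_ifs
    · rw [map_mul, hP, mul_zero]
    · rw [map_zero]
  | zero => intro p d z; simp
  | add x y _ _ hx hy =>
    intro p d z
    rw [mul_add, map_add, map_add, hx, hy, add_zero]
  | smul a x _ hx =>
    intro p d z
    rw [smul_eq_mul, ← mul_assoc]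
    exact hx (p * a) d z

theorem decomp {ι : Type} (P : Z → Fin m → k') (g : ι → MvPolynomial (Fin m) k') (f : ι → ℕ)
    (ℓ : Fin n → MvPolynomial (Fin m) k')
    (hg : ∀ i, (g i).IsHomogeneous (f i)) (hP : ∀ z i, eval (P z) (g i) = 0)
    (hℓ : ∀ i, (ℓ i).IsHomogeneous 1) (N₀ : ℕ) (p : MvPolynomial (Fin m) k')
    (hp : p.IsHomogeneous N₀) (hpm : p ∈ Ideal.span (Set.range g ∪ Set.range ℓ)) :
    ∃ h : Fin n → MvPolynomial (Fin m) k', (∀ j, (h j).IsHomogeneous (N₀ - 1)) ∧
      (N₀ = 0 → ∀ j, h j = 0) ∧
      ∀ z, eval (P z) p = ∑ j, eval (P z) (ℓ j) * eval (P z) (h j) := by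
  rw [Ideal.span_union] at hpm
  obtain ⟨a, ha, b, hb, hab⟩ := Submodule.mem_sup.1 hpm
  obtain ⟨c, hc⟩ := (Submodule.mem_span_range_iff_exists_fun (MvPolynomial (Fin m) k')).1 hb
  refine ⟨fun j => if 1 ≤ N₀ then homogeneousComponent (N₀ - 1) (c j) else 0, ?_, ?_, ?_⟩
  · intro j
    split_ifs
    · exact homogeneousComponent_isHomogeneous _ _
    · exact isHomogeneous_zero _ _ _
  · intro h0 j
    exact if_neg (by omega)
  · intro z
    have h1 : p = homogeneousComponent N₀ p := (homogeneousComponent_eq_self hp).symm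
    rw [h1, ← hab, ← hc, map_add, map_sum, map_add, map_sum]
    have h2 := eval_hc P g f hg hP a ha 1 N₀ z
    rw [one_mul] at h2
    rw [h2, zero_add]
    apply Finset.sum_congr rfl
    intro j _
    rw [smul_eq_mul, hc_mul (c j) (ℓ j) 1 N₀ (hℓ j)]
    split_ifs
    · rw [map_mul, mul_comm]
    · rw [map_zero, mul_zero]

theorem mono_mem {ι : Type} (P : Z → Fin m → k') (g : ι → MvPolynomial (Fin m) k') (f : ι → ℕ)
    (ℓ : Fin n → MvPolynomial (Fin m) k')
    (hg : ∀ i, (g i).IsHomogeneous (f i)) (hP : ∀ z i, eval (P z) (g i) = 0)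
    (hℓ : ∀ i, (ℓ i).IsHomogeneous 1) (N₀ : ℕ)
    (hs : ∀ α : Fin m →₀ ℕ, ∑ j, α j = N₀ →
      monomial α (1 : k') ∈ Ideal.span (Set.range g ∪ Set.range ℓ)) :
    ∀ (N : ℕ) (α : Fin m →₀ ℕ), α.degree = N →
      (fun z => eval (P z) (monomial α (1 : k'))) ∈ Submodule.span k' (gens P ℓ N₀ N) := by
  intro N
  induction N using Nat.strong_induction_on with
  | _ N ih =>
  intro α hα
  by_cases h : N < N₀
  · apply Submodule.subset_span
    refine ⟨0, fun i => Nat.zero_le _, α, fun j => ?_, ?_⟩
    · refine lt_of_le_of_lt ?_ h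
      rw [← hα]
      exact Finsupp.le_degree j α
    · funext z
      rw [eval_monomial, one_mul, Finsupp.prod_fintype _ _ (fun i => pow_zero _)]
      simp
  · obtain ⟨α', α'', h1, h2⟩ := exists_le_deg α N₀ (by omega)
    have h3 : α'.degree + N₀ = N := by
      rw [← h2, ← map_add, ← h1, hα]
    have h4 : ∑ j, α'' j = N₀ := by
      rw [← h2, Finsupp.degree_eq_sum]
    obtain ⟨q, hq1, hq2, hq3⟩ := decomp P g f ℓ hg hP hℓ N₀ (monomial α'' (1 : k'))
      (isHomogeneous_monomial _ h2) (hs α'' h4)
    have h5 : (fun z => eval (P z) (monomial α (1 : k'))) =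
        ∑ j, fun z => eval (P z) (ℓ j) * eval (P z) (monomial α' (1 : k') * q j) := by
      funext z
      rw [Finset.sum_apply]
      have : (monomial α (1 : k') : MvPolynomial (Fin m) k') = monomial α' 1 * monomial α'' 1 := by
        rw [monomial_mul, one_mul, h1]
      rw [this, map_mul, hq3 z, Finset.mul_sum]
      apply Finset.sum_congr rfl
      intro j _
      rw [map_mul]
      ring
    rw [h5]
    apply Submodule.sum_mem
    intro j _
    by_cases h0 : N₀ = 0
    · have : (fun z => eval (P z) (ℓ j) * eval (P z) (monomial α' (1 : k') * q j)) = 0 := by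
        funext z
        rw [hq2 h0 j, mul_zero, map_zero, mul_zero]
        rfl
      rw [this]
      exact Submodule.zero_mem _
    · have h6 : (monomial α' (1 : k') * q j).IsHomogeneous (N - 1) := by
        have := (isHomogeneous_monomial (1 : k') (rfl : α'.degree = α'.degree)).mul (hq1 j)
        rwa [show α'.degree + (N₀ - 1) = N - 1 by omega] at this
      have h7 : (fun z => eval (P z) (monomial α' (1 : k') * q j)) ∈
          Submodule.span k' (gens P ℓ N₀ (N - 1)) := by
        generalize monomial α' (1 : k') * q j = r at h6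
        have : (fun z => eval (P z) r) =
            ∑ d ∈ r.support, coeff d r • fun z => eval (P z) (monomial d (1 : k')) := by
          funext z
          rw [Finset.sum_apply]
          conv_lhs => rw [r.as_sum]
          rw [map_sum]
          apply Finset.sum_congr rfl
          intro d _
          rw [Pi.smul_apply, smul_eq_mul, eval_monomial, eval_monomial, one_mul]
        rw [this]
        apply Submodule.sum_mem
        intro d hd
        apply Submodule.smul_mem
        refine ih (N - 1) (by omega) d ?_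
        have := h6 (mem_support_iff.1 hd)
        rw [Finsupp.degree_eq_weight_one]
        exact this
      have h8 := mul_mem P ℓ N₀ (N - 1) j _ h7
      rwa [show N - 1 + 1 = N by omega] at h8

end

theorem main : S_CNT := by
  intro m n N₀
  refine ⟨N₀ ^ m * (m + 1) ^ n, ?_⟩
  intro k k' _ _ _ _ ι g f ℓ hg hℓ hs
  classical
  let Z := {T : Fin m → k // ∀ i, eval (fun j => algebraMap k k' (T j)) (g i) = 0}
  change Nat.card Z ≤ _
  let P : Z → Fin m → k' := fun z j => algebraMap k k' (z.1 j)
  have hP : ∀ z i, eval (P z) (g i) = 0 := fun z i => z.2 i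
  set q := Fintype.card k with hq
  have hq1 : 1 ≤ q := Fintype.card_pos
  let M := m * (q - 1)
  have hS : ∀ r : MvPolynomial (Fin m) k', (∀ d ∈ r.support, d.degree ≤ M) →
      (fun z => eval (P z) r) ∈ Submodule.span k' (gens P ℓ N₀ M) := by
    intro r hr
    have : (fun z => eval (P z) r) =
        ∑ d ∈ r.support, coeff d r • fun z => eval (P z) (monomial d (1 : k')) := by
      funext z
      rw [Finset.sum_apply]
      conv_lhs => rw [r.as_sum]
      rw [map_sum]
      apply Finset.sum_congr rfl
      intro d _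
      rw [Pi.smul_apply, smul_eq_mul, eval_monomial, eval_monomial, one_mul]
    rw [this]
    apply Submodule.sum_mem
    intro d hd
    apply Submodule.smul_mem
    exact Submodule.span_mono (gens_mono P ℓ N₀ (hr d hd))
      (mono_mem P g f ℓ hg hP hℓ N₀ hs d.degree d rfl)
  have hI : ∀ z0 : Z, ∀ d ∈ (MvPolynomial.map (algebraMap k k') (indicator z0.1)).support,
      d.degree ≤ M := by
    intro z0 d hd
    have h1 : d ∈ (indicator z0.1).support := support_map_subset _ _ hd
    have h2 := le_totalDegree h1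
    have h3 := totalDegree_le_degrees_card (indicator z0.1)
    have h4 : Multiset.card (indicator z0.1).degrees ≤ m * (q - 1) := by
      refine (Multiset.card_le_card (degrees_indicator z0.1)).trans ?_
      simp [hq]
    have h5 : d.degree = d.sum fun _ e => e := rfl
    rw [h5]
    exact h2.trans (h3.trans h4)
  have hev : ∀ z0 z : Z, eval (P z) (MvPolynomial.map (algebraMap k k') (indicator z0.1)) =
      if z = z0 then 1 else 0 := by
    intro z0 z
    have h1 : eval (P z) (MvPolynomial.map (algebraMap k k') (indicator z0.1)) =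
        algebraMap k k' (eval z.1 (indicator z0.1)) := by
      rw [eval_map]
      exact eval₂_comp_left (algebraMap k k') (RingHom.id k) z.1 (indicator z0.1) |>.symm
    rw [h1]
    split_ifs with h
    · rw [h, eval_indicator_apply_eq_one, map_one]
    · rw [eval_indicator_apply_eq_zero _ _ (fun h' => h (Subtype.ext h')), map_zero]
  have htop : Submodule.span k' (gens P ℓ N₀ M) = ⊤ := by
    rw [eq_top_iff]
    intro φ _
    have h1 : φ = ∑ z0 : Z, φ z0 • (fun z => eval (P z)
        (MvPolynomial.map (algebraMap k k') (indicator z0.1))) := by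
      funext z
      rw [Finset.sum_apply, Finset.sum_eq_single z]
      · rw [Pi.smul_apply, hev, if_pos rfl, smul_eq_mul, mul_one]
      · intro b _ hb
        rw [Pi.smul_apply, hev, if_neg (Ne.symm hb), smul_eq_mul, mul_zero]
      · intro h
        exact absurd (Finset.mem_univ z) h
    rw [h1]
    apply Submodule.sum_mem
    intro z0 _
    apply Submodule.smul_mem
    exact hS _ (hI z0)
  let v : (Fin n → Fin (M + 1)) × (Fin m → Fin N₀) → (Z → k') := fun x =>
    fun z => (∏ i, eval (P z) (ℓ i) ^ (x.1 i : ℕ)) * ∏ j, P z j ^ (x.2 j : ℕ)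
  have hv : gens P ℓ N₀ M ⊆ Set.range v := by
    rintro φ ⟨β, hβ, γ, hγ, rfl⟩
    exact ⟨(fun i => ⟨β i, Nat.lt_succ_of_le (hβ i)⟩, fun j => ⟨γ j, hγ j⟩), rfl⟩
  have h1 : Submodule.span k' (Set.range v) = ⊤ := by
    rw [eq_top_iff, ← htop]
    exact Submodule.span_mono hv
  have h2 : Module.finrank k' (Z → k') ≤
      Fintype.card ((Fin n → Fin (M + 1)) × (Fin m → Fin N₀)) := by
    have := finrank_range_le_card (R := k') v
    rwa [Set.finrank, h1, finrank_top] at this
  rw [Module.finrank_fintype_fun_eq_card] at h2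
  have h3 : Fintype.card ((Fin n → Fin (M + 1)) × (Fin m → Fin N₀)) = (M + 1) ^ n * N₀ ^ m := by
    simp
  rw [h3] at h2
  have h4 : M + 1 ≤ (m + 1) * q := by
    have : m * (q - 1) ≤ m * q := Nat.mul_le_mul_left _ (Nat.sub_le _ _)
    change m * (q - 1) + 1 ≤ _
    nlinarith
  rw [Nat.card_eq_fintype_card]
  calc Fintype.card Z ≤ (M + 1) ^ n * N₀ ^ m := h2
    _ ≤ ((m + 1) * q) ^ n * N₀ ^ m := Nat.mul_le_mul_right _ (Nat.pow_le_pow_left h4 n)
    _ = N₀ ^ m * (m + 1) ^ n * q ^ n := by rw [mul_pow]; ring

end Pool.Agent.N591.GS.CNT
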